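import Mathlib
import Pool.Agent.Helper201_HF.Hyp

set_option autoImplicit false

/-!
# Points of hyperbolic varieties of bounded degree are incompressible, with one constant

Fix the dimension `n` of projective space, a bound `d` for the degrees, a natural number `r` and a
finitely generated group `Γ` of nonzero algebraic numbers (for instance the `S`-units of a number
field). We consider the representations

  `x = u_1 V_1 + … + u_r V_r`,  `u_j` algebraic numbers with a power in `Γ`,
                               `V_j` ARBITRARY vectors of algebraic numbers,

of vectors `x` of homogeneous coordinates of the points of projective varieties `X` in `ℙⁿ`. There is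
ONE constant `C`, depending only on `n`, `d`, `r` and `Γ` (not on `X`), such that:

(1) Let `X` be ANY closed subvariety of `ℙⁿ` over the algebraic numbers, given by any set of forms of
degree at most `d` and height at most `H`. If `x` is a point of `X` through which there is no
nonconstant rational curve in `X` with `r` terms, `T ↦ ∑ T ^ (l j) c_j`, then
`h(x) ≤ C (1 + h(V) + H)`, and `x` is proportional to a partial sum `∑_{j ∈ J} u_j V_j` with
`h((u_j)_{j ∈ J}) ≤ C (1 + h(V) + H)`.

(2) Let `X` be a closed subvariety of `ℙⁿ` over a number field `k`, given by forms of degree at most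
`d` and height at most `H`, such that `X_σ` is Brody (equivalently Kobayashi) hyperbolic for one
embedding `σ` of `k` in `ℂ`. Then the bounds in (1) hold for all algebraic points `x` of `X`.

(3) So for these `X` the algebraic points which have a representation with `2 C h(V) ≤ h(x) + B` for
some homogeneous coordinates have height at most `2 C (1 + H) + B`, and for every number field `K`
only finitely many of them are in `X(K)`: all the other points of `X(K)` are incompressible, that is,
`h(V) > (h(x) + B) / (2 C)` for all representations, with the same `C` for all hyperbolic varieties `X`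
of degrees at most `d`, all number fields `k` and all number fields `K`.

(Some hypothesis on rational curves is needed: the points `q(2 ^ m)`, `m ≥ 0`, of a rational curve `q`
in `X` with `r` coefficients `V_j` are of this form, with fixed `V_j` and with `u_j` a power of `2`.)

Proof of (1): a sequence of counterexamples gives, over the field of germs (along an ultrafilter) of
sequences of algebraic numbers, one variety whose equations have coefficients in the subfield of the
germs of negligible height, and a point on it. By the theorem on germs in the library folder
`Y215/SK` of the starting repository (`point_block`, a consequence of a subspace theorem with moving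
coefficients) there is a nonconstant rational curve with `r` terms through this point, over the field
of germs; so almost all the varieties of the sequence contain such curves. The number of the equations
is bounded by linear algebra.
-/

namespace Pool.Agent.Results.MP_627a61_nt.UniformIncompressibility

open MvPolynomial hiding psum
open NumberField Pool.Agent.Helper259.AbsHt Pool.Agent.Y215.SK Pool.Agent.H458.Sp
open Pool.Agent.Helper201_HF

theorem result (n d r : ℕ) (Γ : Subgroup Qbarˣ) (hΓ : Γ.FG) :
    ∃ C : ℝ, 0 < C ∧
    -- (1)
    (∀ (FF : Set (MvPolynomial (Fin (n + 1)) Qbar)) (H : ℝ), 0 ≤ H →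
      (∀ F ∈ FF, (∃ e, e ≤ d ∧ F.IsHomogeneous e) ∧ formHeight F ≤ H) →
      ∀ (u : Fin r → Qbarˣ) (V : Fin r → Fin (n + 1) → Qbar) (x : Fin (n + 1) → Qbar),
      (∀ j, u j ∈ DivHull Γ) → (∀ a, x a = ∑ j, (u j : Qbar) * V j a) → x ≠ 0 →
      (∀ F ∈ FF, aeval x F = 0) → NoCurveThrough r FF x → Bound C H u V x) ∧
    ∀ (k : Type) [Field k] [NumberField k] (σ : k →+* ℂ) (τ : k →+* Qbar)
      (FF : Set (MvPolynomial (Fin (n + 1)) k)) (H : ℝ), 0 ≤ H →
      (∀ F ∈ FF, (∃ e, e ≤ d ∧ F.IsHomogeneous e) ∧ formHeight (map τ F) ≤ H) →
      BrodyHyperbolic ((map σ) '' FF) →
      -- (2)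
      (∀ (u : Fin r → Qbarˣ) (V : Fin r → Fin (n + 1) → Qbar) (x : Fin (n + 1) → Qbar),
        (∀ j, u j ∈ DivHull Γ) → (∀ a, x a = ∑ j, (u j : Qbar) * V j a) → x ≠ 0 →
        (∀ F ∈ FF, eval₂ τ x F = 0) → Bound C H u V x) ∧
      -- (3)
      ∀ B : ℝ, (∀ x : Fin (n + 1) → Qbar, Compressible τ FF Γ r C B x →
          absLogHeight x ≤ 2 * C * (1 + H) + B) ∧
        ∀ (K : Type) [Field K] [NumberField K] (φ : K →+* Qbar),
          (compressiblePoints τ φ FF Γ r C B).Finite :=
  main n d r Γ hΓ

end Pool.Agent.Results.MP_627a61_nt.UniformIncompressibility
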